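import Pool.Agent.Wpp.Expl

set_option autoImplicit false

/-! Willems' inequality, large alternating composition factors and composition factors having a large simple
module. -/

namespace Pool.Agent.Results.MP_6335a4_al.CompositionFactors

/-- The dimension of `k[G] / J(k[G])` over `k`. -/
noncomputable def ssDim (k G : Type) [Field k] [Group G] : ℕ :=
  Module.finrank k (MonoidAlgebra k G ⧸ (Ring.jacobson (MonoidAlgebra k G)).restrictScalars k)

/-- The `p'`-part of a natural number. -/
def pPrimePart (p n : ℕ) : ℕ := n / p ^ n.factorization p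

/-- `1 = H 0 ⊲ H 1 ⊲ ... ⊲ H r = N`: a subnormal series of the subgroup `N`. -/
def IsSeries {G : Type} [Group G] (N : Subgroup G) (r : ℕ) (H : ℕ → Subgroup G) : Prop :=
  H 0 = ⊥ ∧ H r = N ∧ ∀ i < r, H i ≤ H (i + 1) ∧ ((H i).subgroupOf (H (i + 1))).Normal

/-- `B / A` is isomorphic to the alternating group of degree `n`: there is a homomorphism from `B` onto it
with kernel `A`. -/
def AltFactor {G : Type} [Group G] (A B : Subgroup G) (n : ℕ) : Prop :=
  ∃ f : B →* alternatingGroup (Fin n), Function.Surjective f ∧ f.ker = A.subgroupOf B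

/-- `S` has an absolutely simple module over `k` of dimension `c` (a representation by `c × c` matrices, which
span all matrices), and `c` is a power of `p` or the representation is the restriction of a representation of
the automorphism group to the inner automorphisms. -/
def Big (p : ℕ) (k S : Type) [Field k] [Group S] (c : ℕ) : Prop :=
  (∃ V : S →* Matrix (Fin c) (Fin c) k, (∃ a, c = p ^ a) ∧
    Submodule.span k (Set.range V) = ⊤) ∨
  ∃ W : MulAut S →* Matrix (Fin c) (Fin c) k, 0 < c ∧
    Submodule.span k (Set.range fun s : S => W (MulAut.conj s)) = ⊤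

/-- `B / A` is isomorphic to a simple group `S` with `Big p k S c`: there is a homomorphism from `B` onto `S`
with kernel `A`. -/
def BigFactor (p : ℕ) (k : Type) [Field k] {G : Type} [Group G] (A B : Subgroup G) (c : ℕ) : Prop :=
  ∃ (S : Type) (_ : Group S) (f : B →* S),
    IsSimpleGroup S ∧ Function.Surjective f ∧ f.ker = A.subgroupOf B ∧ Big p k S c

/-- Let `k` be a perfect field of characteristic `p`, `N` a normal subgroup of the finite group `G` with a subnormal series whose
factors with index in `I` are alternating groups of degrees `d i ≥ (401 p⁵)²` and whose factors with index in `J` are simple groups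
with `Big p k S (c i)`; the other factors are arbitrary. Then `S_p(G) ≥ S_p(G / N) ∏_I (d i)! exp (- d i / p³) ∏_J (c i)²`, and if
the order of `N` is `R` times the product of the orders of the alternating factors and
`(R_{p'}) ^ p ≤ p ^ (∑_I d i) ∏_J (c i) ^ (2 p)` then `S_p(G) ≥ |N|_{p'} S_p(G / N)`. -/
theorem result (p : ℕ) [Fact p.Prime] (k : Type) [Field k] [CharP k p] [PerfectField k] (G : Type) [Group G] [Finite G]
    (N : Subgroup G) [N.Normal] (r : ℕ) (H : ℕ → Subgroup G) (I J : Finset ℕ) (d c : ℕ → ℕ)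
    (hH : IsSeries N r H) (hIJ : Disjoint I J)
    (hI : ∀ i ∈ I, i < r ∧ (401 * p ^ 5) ^ 2 ≤ d i ∧ AltFactor (H i) (H (i + 1)) (d i))
    (hJ : ∀ i ∈ J, i < r ∧ BigFactor p k (H i) (H (i + 1)) (c i)) :
    (∏ i ∈ I, ((d i).factorial : ℝ) * Real.exp (-(d i : ℝ) / (p : ℝ) ^ 3)) *
        (∏ i ∈ J, (c i : ℝ)) ^ 2 * (ssDim k (G ⧸ N) : ℝ) ≤ (ssDim k G : ℝ) ∧
    ∀ R : ℕ, Nat.card N = R * ∏ i ∈ I, Nat.card (alternatingGroup (Fin (d i))) →
      pPrimePart p R ^ p ≤ p ^ (∑ i ∈ I, d i) * (∏ i ∈ J, c i) ^ (2 * p) →
      pPrimePart p (Nat.card N) * ssDim k (G ⧸ N) ≤ ssDim k G :=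
  Wpp.main_expl p k G N r H I J d c hH hIJ hI hJ

end Pool.Agent.Results.MP_6335a4_al.CompositionFactors
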