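import Mathlib
import Pool.Agent.Wex.Fin

set_option autoImplicit false

/-! Willems' inequality: normal powers of simple groups with cyclic outer automorphism group, and wreath products. -/

namespace Pool.Agent.Results.MP_6335a4_al.NormalPowers

/-- The dimension of `k[G] / J(k[G])` over `k`. -/
noncomputable def ssDim (k G : Type) [Field k] [Group G] : ℕ :=
  Module.finrank k (MonoidAlgebra k G ⧸ (Ring.jacobson (MonoidAlgebra k G)).restrictScalars k)

/-- The `p'`-part of a natural number. -/
def pPrimePart (p n : ℕ) : ℕ := n / p ^ n.factorization p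

/-- Willems' inequality for the group `G`, the prime `p` and the field `k` (of characteristic `p`). -/
def Willems (p : ℕ) (k G : Type) [Field k] [Group G] : Prop := pPrimePart p (Nat.card G) ≤ ssDim k G

/-- All groups of order less than `n` satisfy Willems' inequality. -/
def WillemsBelow (p : ℕ) (k : Type) [Field k] (n : ℕ) : Prop :=
  ∀ (Q : Type) [Group Q] [Finite Q], Nat.card Q < n → Willems p k Q

/-- The outer automorphism group of `T` is cyclic: every automorphism is an inner automorphism times a power of `t`. -/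
def CyclicOut (T : Type) [Group T] : Prop :=
  ∃ t : MulAut T, ∀ a : MulAut T, ∃ (g : T) (z : ℤ), a = MulAut.conj g * t ^ z

/-- The action of `P` on the functions `Ω → H`: `(q h) ω = h (q⁻¹ ω)`. -/
def act (H P Ω : Type) [Group H] [Group P] [MulAction P Ω] : P →* MulAut (Ω → H) where
  toFun q :=
    { toFun := fun h ω => h (q⁻¹ • ω)
      invFun := fun h ω => h (q • ω)
      left_inv := fun h => by funext ω; simp
      right_inv := fun h => by funext ω; simp
      map_mul' := fun _ _ => rfl }
  map_one' := by ext h ω; simp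
  map_mul' q r := by
    ext h ω
    simp [mul_smul]

/-- The wreath product `H ≀ P`, `P` acting on `Ω`. -/
abbrev Wr (H P Ω : Type) [Group H] [Group P] [MulAction P Ω] : Type := (Ω → H) ⋊[act H P Ω] P

/-- The stabiliser in `P` of the colouring `f` of `Ω`. -/
def stab (P : Type) {Ω : Type} [Group P] [MulAction P Ω] (f : Ω → ℕ) : Subgroup P where
  carrier := {q | ∀ ω, f (q • ω) = f ω}
  mul_mem' := fun {q r} hq hr ω => by rw [mul_smul, hq, hr]
  one_mem' := fun ω => by rw [one_smul]
  inv_mem' := fun {q} hq ω => by rw [← hq (q⁻¹ • ω), smul_inv_smul]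

/-- Let `k` be a field of characteristic `p`. (1) Let `T` be a nonabelian simple group with cyclic outer automorphism group, `G` a
finite group with a normal subgroup `N` isomorphic to `T ^ m`, `m ≥ 1`. If Willems' inequality holds for all subgroups of `G / N` then
`|G / N|_{p'} S_p(T) ^ m ≤ S_p(G)`. If it holds for all groups of order less than `|G|` then it holds for `G`, or `G` is isomorphic to
`T`. (2) Let `H` and `P` be finite groups, `P` acting on the finite set `Ω`. If Willems' inequality holds for the stabilisers in `P` of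
all colourings of `Ω` then `|P|_{p'} S_p(H) ^ |Ω| ≤ S_p(H ≀ P)`. If it holds for all groups of order less than `|H ≀ P|`, `H` and `P`
are not trivial and `Ω` is not empty, then it holds for `H ≀ P`. -/
theorem result (p : ℕ) [Fact p.Prime] (k : Type) [Field k] [CharP k p] :
    (∀ (T G : Type) [Group T] [IsSimpleGroup T] [Group G] [Finite G] (N : Subgroup G) [N.Normal] (m : ℕ),
      (∃ a b : T, a * b ≠ b * a) → CyclicOut T → 0 < m → Nonempty (N ≃* (Fin m → T)) →
        ((∀ Q : Subgroup (G ⧸ N), Willems p k Q) →
          pPrimePart p (Nat.card (G ⧸ N)) * ssDim k T ^ m ≤ ssDim k G) ∧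
        (WillemsBelow p k (Nat.card G) → Willems p k G ∨ Nonempty (G ≃* T))) ∧
    ∀ (H P Ω : Type) [Group H] [Finite H] [Group P] [Finite P] [MulAction P Ω] [Finite Ω],
      ((∀ f : Ω → ℕ, Willems p k (stab P f)) →
        pPrimePart p (Nat.card P) * ssDim k H ^ Nat.card Ω ≤ ssDim k (Wr H P Ω)) ∧
      (Nontrivial H → Nontrivial P → Nonempty Ω → WillemsBelow p k (Nat.card (Wr H P Ω)) →
        Willems p k (Wr H P Ω)) := by
  refine ⟨?_, ?_⟩
  · intro T G _ _ _ _ N _ m hT hc hm he
    obtain ⟨e⟩ := he
    exact ⟨fun hQ => Pool.Agent.Wex.simpleX p k T G hT hc N m hm e hQ,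
      fun hs => Pool.Agent.Wex.leastX p k T G hT hc N m hm e hs⟩
  · intro H P Ω _ _ _ _ _ _
    have h : (∀ f : Ω → ℕ, Willems p k (stab P f)) →
        pPrimePart p (Nat.card P) * ssDim k H ^ Nat.card Ω ≤ ssDim k (Wr H P Ω) :=
      fun hP => Pool.Agent.Wrc.wr_field p k H P Ω hP
    have h' : (∀ f : Ω → ℕ, Willems p k (stab P f)) → Willems p k H → Willems p k (Wr H P Ω) :=
      fun hP => Pool.Agent.Wrc.wr_will p k H P Ω (h hP)
    refine ⟨h, ?_⟩
    intro hH hPn hΩ hG
    have hc : Nat.card (Wr H P Ω) = Nat.card P * Nat.card H ^ Nat.card Ω := Pool.Agent.Wrc.card_wr H P Ω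
    have h1 : 1 < Nat.card H := Finite.one_lt_card
    have h2 : 1 < Nat.card P := Finite.one_lt_card
    have h3 : Nat.card Ω ≠ 0 := Nat.card_pos.ne'
    have h4 : Nat.card H ≤ Nat.card H ^ Nat.card Ω := Nat.le_self_pow h3 _
    refine h' (fun f => hG _ ?_) (hG _ ?_)
    · have h5 : Nat.card (stab P f) ≤ Nat.card P := Subgroup.card_le_card_group _
      rw [hc]
      nlinarith
    · rw [hc]
      nlinarith

end Pool.Agent.Results.MP_6335a4_al.NormalPowers
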