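import Mathlib

set_option autoImplicit false

namespace Pool.Agent.Results.MP_6335a4_al.PerfectAmplification

open MonoidAlgebra
open scoped commutatorElement

/-- The dimension of `k[G] / J(k[G])` over `k`. -/
noncomputable def ssDim (k G : Type) [Field k] [Group G] : ℕ :=
  Module.finrank k (MonoidAlgebra k G ⧸ (Ring.jacobson (MonoidAlgebra k G)).restrictScalars k)

section lin
variable {k V : Type} [Field k] [AddCommGroup V] [Module k V] [Module.Finite k V]

lemma exists_span (U : Submodule k V) :
    ∃ v : Fin (Module.finrank k (V ⧸ U)) → V, Submodule.span k (Set.range v) ⊔ U = ⊤ := by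
  classical
  let b := Module.finBasis k (V ⧸ U)
  choose v hv using fun i => Submodule.mkQ_surjective U (b i)
  refine ⟨v, ?_⟩
  have h1 : Submodule.map U.mkQ (Submodule.span k (Set.range v)) = ⊤ := by
    rw [Submodule.map_span, ← Set.range_comp]
    have : (U.mkQ ∘ v) = b := funext hv
    rw [this, b.span_eq]
  have h2 : Submodule.comap U.mkQ (Submodule.map U.mkQ (Submodule.span k (Set.range v))) = ⊤ := by
    rw [h1, Submodule.comap_top]
  rw [Submodule.comap_map_eq, Submodule.ker_mkQ] at h2
  exact h2

omit [Module.Finite k V] in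
lemma finrank_le_of_span {ι : Type} [Fintype ι] (U : Submodule k V) (v : ι → V)
    (h : Submodule.span k (Set.range v) ⊔ U = ⊤) :
    Module.finrank k (V ⧸ U) ≤ Fintype.card ι := by
  have h1 : Submodule.map U.mkQ (Submodule.span k (Set.range v) ⊔ U) = ⊤ := by
    rw [h, Submodule.map_top, Submodule.range_mkQ]
  rw [Submodule.map_sup, Submodule.mkQ_map_self, sup_bot_eq, Submodule.map_span,
    ← Set.range_comp] at h1
  have h2 := finrank_range_le_card (R := k) (U.mkQ ∘ v)
  rw [Set.finrank, h1, finrank_top] at h2
  exact h2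

end lin

section jac
variable {A : Type} [Ring A]

lemma nil_le_jacobson (I : Ideal A) (h : ∀ x ∈ I, IsNilpotent x) : I ≤ Ring.jacobson A := by
  rw [Ring.jacobson_eq_sInf_isMaximal]
  refine le_sInf ?_
  intro m hm x hx
  have hm' : m.IsMaximal := hm
  by_contra hxm
  have h1 : m ⊔ I = ⊤ := by
    refine hm'.1.2 _ (lt_of_le_of_ne le_sup_left ?_)
    intro he
    exact hxm (he ▸ (le_sup_right : I ≤ m ⊔ I) hx)
  have h2 : (1 : A) ∈ m ⊔ I := by rw [h1]; trivial
  obtain ⟨y, hy, i, hi, hyi⟩ := Submodule.mem_sup.1 h2
  have h3 : IsUnit (1 - i) := (h i hi).isUnit_one_sub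
  have h4 : y = 1 - i := by rw [← hyi]; abel
  rw [← h4] at h3
  exact hm'.ne_top (Ideal.eq_top_of_isUnit_mem _ hy h3)

lemma nilpotent_of_mem_jacobson [IsArtinianRing A] {x : A} (hx : x ∈ Ring.jacobson A) :
    IsNilpotent x := by
  obtain ⟨n, hn⟩ := IsArtinianRing.isNilpotent_jacobson_bot (R := A)
  rw [Ideal.jacobson_bot] at hn
  refine ⟨n, ?_⟩
  have := Ideal.pow_mem_pow hx n
  rw [hn] at this
  simpa using this

end jac


section grp
variable {k : Type} [Field k]

instance instFiniteMA (G : Type) [Group G] [Finite G] : Module.Finite k (MonoidAlgebra k G) :=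
  Module.Finite.of_basis (MonoidAlgebra.basis G k)

instance instArt (G : Type) [Group G] [Finite G] : IsArtinianRing (MonoidAlgebra k G) :=
  IsArtinianRing.of_finite k _

/-- The algebra map of group algebras induced by a group homomorphism. -/
noncomputable abbrev ind {G H : Type} [Group G] [Group H] (f : G →* H) :
    MonoidAlgebra k G →ₐ[k] MonoidAlgebra k H := MonoidAlgebra.mapDomainAlgHom k k f

lemma ind_injective {G H : Type} [Group G] [Group H] (f : G →* H) (hf : Function.Injective f) :
    Function.Injective (ind (k := k) f) := by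
  exact MonoidAlgebra.mapDomain_injective hf

lemma ind_surjective {G H : Type} [Group G] [Group H] (f : G →* H) (hf : Function.Surjective f) :
    Function.Surjective (ind (k := k) f) := by
  intro y
  induction y using MonoidAlgebra.induction_linear with
  | zero => exact ⟨0, map_zero _⟩
  | add a b ha hb =>
    obtain ⟨x, hx⟩ := ha
    obtain ⟨y, hy⟩ := hb
    exact ⟨x + y, by rw [map_add, hx, hy]⟩
  | single m a =>
    obtain ⟨g, rfl⟩ := hf m
    exact ⟨single g a, by simp [ind]⟩

lemma ssDim_le_of_injective {G H : Type} [Group G] [Group H] [Finite G] [Finite H] (f : H →* G)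
    (hf : Function.Injective f) : ssDim k H ≤ ssDim k G := by
  set F := ind (k := k) f with hF
  have hinj : Function.Injective F := ind_injective f hf
  have hle : Ideal.comap F.toRingHom (Ring.jacobson (MonoidAlgebra k G)) ≤
      Ring.jacobson (MonoidAlgebra k H) := by
    apply nil_le_jacobson
    intro x hx
    obtain ⟨n, hn⟩ := nilpotent_of_mem_jacobson (Ideal.mem_comap.1 hx)
    refine ⟨n, hinj ?_⟩
    rw [map_pow, map_zero]
    exact hn
  set U := (Ring.jacobson (MonoidAlgebra k G)).restrictScalars k
  set U' := (Ring.jacobson (MonoidAlgebra k H)).restrictScalars k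
  have hle' : Submodule.comap F.toLinearMap U ≤ U' := fun x hx => hle hx
  have h1 : Module.finrank k (MonoidAlgebra k H ⧸ U') ≤
      Module.finrank k (MonoidAlgebra k H ⧸ Submodule.comap F.toLinearMap U) := by
    apply LinearMap.finrank_le_finrank_of_surjective (f := Submodule.factor hle')
    exact Submodule.factor_surjective hle'
  have h2 : Module.finrank k (MonoidAlgebra k H ⧸ Submodule.comap F.toLinearMap U) ≤
      Module.finrank k (MonoidAlgebra k G ⧸ U) := by
    apply LinearMap.finrank_le_finrank_of_injective
      (f := Submodule.mapQ (Submodule.comap F.toLinearMap U) U F.toLinearMap le_rfl)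
    rw [← LinearMap.ker_eq_bot, Submodule.ker_mapQ]
    rw [Submodule.mkQ_map_self]
  exact h1.trans h2

lemma ssDim_le_of_surjective {G H : Type} [Group G] [Group H] [Finite G] [Finite H] (f : G →* H)
    (hf : Function.Surjective f) : ssDim k H ≤ ssDim k G := by
  set F := ind (k := k) f with hF
  have hsur : Function.Surjective F := ind_surjective f hf
  have : RingHomSurjective (F.toRingHom) := ⟨hsur⟩
  have hle : Ring.jacobson (MonoidAlgebra k G) ≤
      Ideal.comap F.toRingHom (Ring.jacobson (MonoidAlgebra k H)) := Ring.le_comap_jacobson F.toRingHom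
  set U := (Ring.jacobson (MonoidAlgebra k G)).restrictScalars k
  set U' := (Ring.jacobson (MonoidAlgebra k H)).restrictScalars k
  have hle' : U ≤ Submodule.comap F.toLinearMap U' := fun x hx => hle hx
  apply LinearMap.finrank_le_finrank_of_surjective (f := Submodule.mapQ U U' F.toLinearMap hle')
  intro y
  obtain ⟨y, rfl⟩ := Submodule.mkQ_surjective _ y
  obtain ⟨x, rfl⟩ := hsur y
  exact ⟨Submodule.mkQ _ x, rfl⟩


/-- conjugation by `x` on the group algebra of a normal subgroup -/
noncomputable def conjN {X : Type} [Group X] (N : Subgroup X) [N.Normal] (x : X) :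
    MonoidAlgebra k N ≃ₐ[k] MonoidAlgebra k N :=
  MonoidAlgebra.domCongr k k (MulAut.conjNormal x)

lemma conjN_mem {X : Type} [Group X] (N : Subgroup X) [N.Normal] (x : X)
    (a : MonoidAlgebra k N) (ha : a ∈ Ring.jacobson (MonoidAlgebra k N)) :
    conjN N x a ∈ Ring.jacobson (MonoidAlgebra k N) := by
  have : RingHomSurjective ((conjN (k := k) N x).toRingEquiv : MonoidAlgebra k N →+* MonoidAlgebra k N) :=
    ⟨(conjN (k := k) N x).surjective⟩
  exact Ring.le_comap_jacobson
    ((conjN (k := k) N x).toRingEquiv : MonoidAlgebra k N →+* MonoidAlgebra k N) ha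

lemma ind_mul_single {X : Type} [Group X] (N : Subgroup X) [N.Normal] (x : X)
    (a : MonoidAlgebra k N) (c : k) :
    ind (k := k) N.subtype a * single x c = single x c * ind (k := k) N.subtype (conjN N x⁻¹ a) := by
  induction a using MonoidAlgebra.induction_linear with
  | zero => simp
  | add a b ha hb => simp only [map_add, add_mul, mul_add, ha, hb]
  | single m r =>
    simp only [ind, conjN, MonoidAlgebra.mapDomainAlgHom_apply, MonoidAlgebra.domCongr_single,
      MonoidAlgebra.mapDomain_single, MonoidAlgebra.single_mul_single, MulAut.conjNormal_apply,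
      Subgroup.subtype_apply]
    congr 1
    · group
    · ring

/-- The span of `single g 1 * ι y`, `y ∈ J^n`. -/
noncomputable def PP {X : Type} [Group X] (N : Subgroup X) (n : ℕ) :
    Submodule k (MonoidAlgebra k X) :=
  Submodule.span k {z | ∃ (g : X) (y : MonoidAlgebra k N), y ∈ (Ring.jacobson (MonoidAlgebra k N)) ^ n ∧
    z = single g 1 * ind (k := k) N.subtype y}

lemma PP_step {X : Type} [Group X] (N : Subgroup X) [N.Normal] (n : ℕ)
    (i : MonoidAlgebra k X)
    (hi : i ∈ Ideal.span ((ind (k := k) N.subtype) '' (Ring.jacobson (MonoidAlgebra k N) : Set _)))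
    (u : MonoidAlgebra k X) (hu : u ∈ PP (k := k) N n) : i * u ∈ PP (k := k) N (n + 1) := by
  -- multiplication by an element of `k[X]` preserves `PP (n+1)`
  have hmul : ∀ (m : ℕ) (a z : MonoidAlgebra k X), z ∈ PP (k := k) N m → a * z ∈ PP (k := k) N m := by
    intro m a z hz
    induction hz using Submodule.span_induction with
    | mem z hz =>
      obtain ⟨g, y, hy, rfl⟩ := hz
      induction a using MonoidAlgebra.induction_linear with
      | zero => rw [zero_mul]; exact Submodule.zero_mem _
      | add a b ha hb => rw [add_mul]; exact Submodule.add_mem _ ha hb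
      | single h c =>
        have : single h c * (single g 1 * ind (k := k) N.subtype y) =
            c • (single (h * g) 1 * ind (k := k) N.subtype y) := by
          rw [← mul_assoc, MonoidAlgebra.single_mul_single, ← smul_mul_assoc,
            MonoidAlgebra.smul_single, mul_one, smul_eq_mul, mul_one]
        rw [this]
        exact Submodule.smul_mem _ _ (Submodule.subset_span ⟨_, y, hy, rfl⟩)
    | zero => rw [mul_zero]; exact Submodule.zero_mem _
    | add x y _ _ hx hy => rw [mul_add]; exact Submodule.add_mem _ hx hy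
    | smul c x _ hx => rw [mul_smul_comm]; exact Submodule.smul_mem _ _ hx
  induction hi using Submodule.span_induction with
  | zero => rw [zero_mul]; exact Submodule.zero_mem _
  | add x y _ _ hx hy => rw [add_mul]; exact Submodule.add_mem _ hx hy
  | smul c x _ hx => rw [smul_eq_mul, mul_assoc]; exact hmul _ _ _ hx
  | mem i hi =>
    obtain ⟨x, hx, rfl⟩ := hi
    induction hu using Submodule.span_induction with
    | zero => rw [mul_zero]; exact Submodule.zero_mem _
    | add x y _ _ hx hy => rw [mul_add]; exact Submodule.add_mem _ hx hy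
    | smul c x _ hx => rw [mul_smul_comm]; exact Submodule.smul_mem _ _ hx
    | mem z hz =>
      obtain ⟨g, y, hy, rfl⟩ := hz
      rw [← mul_assoc, ind_mul_single, mul_assoc, ← map_mul]
      refine Submodule.subset_span ⟨g, _, ?_, rfl⟩
      rw [Ideal.IsTwoSided.pow_succ]
      exact Ideal.mul_mem_mul (conjN_mem N _ x hx) hy

lemma ind_jacobson_mem {X : Type} [Group X] [Finite X] (N : Subgroup X) [N.Normal]
    (x : MonoidAlgebra k N) (hx : x ∈ Ring.jacobson (MonoidAlgebra k N)) :
    ind (k := k) N.subtype x ∈ Ring.jacobson (MonoidAlgebra k X) := by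
  have h := nil_le_jacobson
    (Ideal.span ((ind (k := k) N.subtype) '' (Ring.jacobson (MonoidAlgebra k N) : Set _))) ?_
  · exact h (Ideal.subset_span ⟨x, hx, rfl⟩)
  · intro i hi
    obtain ⟨n, hn⟩ := IsArtinianRing.isNilpotent_jacobson_bot (R := MonoidAlgebra k N)
    rw [Ideal.jacobson_bot] at hn
    refine ⟨n, ?_⟩
    have key : ∀ m : ℕ, i ^ m ∈ PP (k := k) N m := by
      intro m
      induction m with
      | zero =>
        rw [pow_zero]
        refine Submodule.subset_span ⟨1, 1, ?_, ?_⟩
        · rw [Submodule.pow_zero, Ideal.one_eq_top]; trivial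
        · rw [map_one, mul_one]; rfl
      | succ m ih =>
        rw [pow_succ']
        exact PP_step N m i hi _ ih
    have h1 := key n
    have h2 : PP (k := k) N n = ⊥ := by
      rw [PP, Submodule.span_eq_bot]
      rintro z ⟨g, y, hy, rfl⟩
      rw [hn] at hy
      have : y = 0 := by simpa using hy
      rw [this, map_zero, mul_zero]
    rw [h2] at h1
    simpa using h1

lemma ssDim_le_index {X : Type} [Group X] [Finite X] (N : Subgroup X) [N.Normal] :
    ssDim k X ≤ N.index * ssDim k N := by
  classical
  obtain ⟨v, hv⟩ := exists_span ((Ring.jacobson (MonoidAlgebra k N)).restrictScalars k)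
  have : Fintype (X ⧸ N) := Fintype.ofFinite _
  let w : (X ⧸ N) × Fin (ssDim k N) → MonoidAlgebra k X :=
    fun p => single p.1.out 1 * ind (k := k) N.subtype (v p.2)
  have h := finrank_le_of_span ((Ring.jacobson (MonoidAlgebra k X)).restrictScalars k) w ?_
  · rw [Fintype.card_prod, Fintype.card_fin] at h
    rw [Subgroup.index, Nat.card_eq_fintype_card]
    exact h
  · rw [eq_top_iff]
    intro a _
    set T := Submodule.span k (Set.range w) ⊔ (Ring.jacobson (MonoidAlgebra k X)).restrictScalars k
    -- first: `single g 1 * ι b ∈ T` for a representative `g`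
    have h1 : ∀ (c : X ⧸ N) (b : MonoidAlgebra k N), single c.out 1 * ind (k := k) N.subtype b ∈ T := by
      intro c b
      have hb : b ∈ Submodule.span k (Set.range v) ⊔
          (Ring.jacobson (MonoidAlgebra k N)).restrictScalars k := by rw [hv]; trivial
      obtain ⟨y, hy, z, hz, rfl⟩ := Submodule.mem_sup.1 hb
      rw [map_add, mul_add]
      clear hb
      refine Submodule.add_mem _ ?_ ?_
      · refine Submodule.mem_sup_left ?_
        induction hy using Submodule.span_induction with
        | mem y hy =>
          obtain ⟨j, rfl⟩ := hy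
          exact Submodule.subset_span ⟨(c, j), rfl⟩
        | zero => rw [map_zero, mul_zero]; exact Submodule.zero_mem _
        | add x y _ _ hx hy => rw [map_add, mul_add]; exact Submodule.add_mem _ hx hy
        | smul r x _ hx => rw [map_smul, mul_smul_comm]; exact Submodule.smul_mem _ _ hx
      · refine Submodule.mem_sup_right ?_
        exact Ideal.mul_mem_left _ _ (ind_jacobson_mem N z hz)
    induction a using MonoidAlgebra.induction_linear with
    | zero => exact Submodule.zero_mem _
    | add a b ha hb => exact Submodule.add_mem _ (ha trivial) (hb trivial)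
    | single g r =>
      have hg : (QuotientGroup.mk g : X ⧸ N).out⁻¹ * g ∈ N := by
        rw [← QuotientGroup.eq]
        exact QuotientGroup.out_eq' _
      have := h1 (QuotientGroup.mk g) (single ⟨_, hg⟩ r)
      rw [ind, MonoidAlgebra.mapDomainAlgHom_apply, MonoidAlgebra.mapDomain_single,
        MonoidAlgebra.single_mul_single] at this
      simpa using this


lemma ind_jacobson_mem' {G X : Type} [Group G] [Group X] [Finite X] (f : G →* X)
    (hf : f.range.Normal) (x : MonoidAlgebra k G) (hx : x ∈ Ring.jacobson (MonoidAlgebra k G)) :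
    ind (k := k) f x ∈ Ring.jacobson (MonoidAlgebra k X) := by
  have hsur := ind_surjective (k := k) f.rangeRestrict f.rangeRestrict_surjective
  have : RingHomSurjective ((ind (k := k) f.rangeRestrict).toRingHom) := ⟨hsur⟩
  have h1 : ind (k := k) f.rangeRestrict x ∈ Ring.jacobson (MonoidAlgebra k f.range) :=
    Ring.le_comap_jacobson (ind (k := k) f.rangeRestrict).toRingHom hx
  have h2 := ind_jacobson_mem f.range _ h1
  have h3 : ind (k := k) f x = ind (k := k) f.range.subtype (ind (k := k) f.rangeRestrict x) := by
    have : f = f.range.subtype.comp f.rangeRestrict := by ext; rfl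
    conv_lhs => rw [this, ind, MonoidAlgebra.mapDomainAlgHom_comp]
    rfl
  rw [h3]
  exact h2

lemma ssDim_le_card (G : Type) [Group G] [Finite G] : ssDim k G ≤ Nat.card G := by
  have : Fintype G := Fintype.ofFinite G
  rw [Nat.card_eq_fintype_card]
  refine finrank_le_of_span _ (fun g : G => (single g 1 : MonoidAlgebra k G)) ?_
  rw [eq_top_iff]
  intro a _
  refine Submodule.mem_sup_left ?_
  induction a using MonoidAlgebra.induction_linear with
  | zero => exact Submodule.zero_mem _
  | add a b ha hb => exact Submodule.add_mem _ (ha trivial) (hb trivial)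
  | single g r =>
    have : (single g r : MonoidAlgebra k G) = r • single g 1 := by
      rw [MonoidAlgebra.smul_single, smul_eq_mul, mul_one]
    rw [this]
    exact Submodule.smul_mem _ _ (Submodule.subset_span ⟨g, rfl⟩)

lemma ssDim_pos (G : Type) [Group G] [Finite G] : 1 ≤ ssDim k G := by
  rw [Nat.one_le_iff_ne_zero]
  intro h
  unfold ssDim at h
  rw [Module.finrank_zero_iff] at h
  have h1 := Ring.jacobson_lt_top (MonoidAlgebra k G)
  have h2 : (1 : MonoidAlgebra k G) ∈ (Ring.jacobson (MonoidAlgebra k G)).restrictScalars k := by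
    rw [← Submodule.Quotient.mk_eq_zero]
    exact Subsingleton.elim _ _
  exact h1.ne ((Ideal.eq_top_iff_one _).2 h2)

lemma ssDim_prod (G H : Type) [Group G] [Group H] [Finite G] [Finite H] :
    ssDim k (G × H) ≤ ssDim k G * ssDim k H := by
  classical
  obtain ⟨v, hv⟩ := exists_span ((Ring.jacobson (MonoidAlgebra k G)).restrictScalars k)
  obtain ⟨w, hw⟩ := exists_span ((Ring.jacobson (MonoidAlgebra k H)).restrictScalars k)
  have n1 : (MonoidHom.inl G H).range.Normal := by
    constructor
    rintro _ ⟨a, rfl⟩ ⟨g, h⟩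
    exact ⟨g * a * g⁻¹, by simp⟩
  have n2 : (MonoidHom.inr G H).range.Normal := by
    constructor
    rintro _ ⟨a, rfl⟩ ⟨g, h⟩
    exact ⟨h * a * h⁻¹, by simp⟩
  set i1 := ind (k := k) (MonoidHom.inl G H) with hi1
  set i2 := ind (k := k) (MonoidHom.inr G H) with hi2
  let u : Fin (ssDim k G) × Fin (ssDim k H) → MonoidAlgebra k (G × H) :=
    fun p => i1 (v p.1) * i2 (w p.2)
  have h := finrank_le_of_span ((Ring.jacobson (MonoidAlgebra k (G × H))).restrictScalars k) u ?_
  · rw [Fintype.card_prod, Fintype.card_fin, Fintype.card_fin] at h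
    exact h
  rw [eq_top_iff]
  intro a _
  set T := Submodule.span k (Set.range u) ⊔
    (Ring.jacobson (MonoidAlgebra k (G × H))).restrictScalars k with hT
  have hJ : ∀ z, z ∈ Ring.jacobson (MonoidAlgebra k (G × H)) → z ∈ T := fun z hz =>
    Submodule.mem_sup_right hz
  have h1 : ∀ (a : MonoidAlgebra k G) (b : MonoidAlgebra k H), i1 a * i2 b ∈ T := by
    intro a b
    have ha : a ∈ Submodule.span k (Set.range v) ⊔
          (Ring.jacobson (MonoidAlgebra k G)).restrictScalars k := by rw [hv]; trivial
    have hb : b ∈ Submodule.span k (Set.range w) ⊔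
          (Ring.jacobson (MonoidAlgebra k H)).restrictScalars k := by rw [hw]; trivial
    obtain ⟨y, hy, z, hz, rfl⟩ := Submodule.mem_sup.1 ha
    obtain ⟨y', hy', z', hz', rfl⟩ := Submodule.mem_sup.1 hb
    clear ha hb
    rw [map_add, add_mul, map_add, mul_add]
    refine Submodule.add_mem _ (Submodule.add_mem _ ?_ ?_) ?_
    · refine Submodule.mem_sup_left ?_
      induction hy using Submodule.span_induction with
      | mem y hy =>
        obtain ⟨j, rfl⟩ := hy
        induction hy' using Submodule.span_induction with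
        | mem y hy =>
          obtain ⟨l, rfl⟩ := hy
          exact Submodule.subset_span ⟨(j, l), rfl⟩
        | zero => rw [map_zero, mul_zero]; exact Submodule.zero_mem _
        | add x y _ _ hx hy => rw [map_add, mul_add]; exact Submodule.add_mem _ hx hy
        | smul r x _ hx => rw [map_smul, mul_smul_comm]; exact Submodule.smul_mem _ _ hx
      | zero => rw [map_zero, zero_mul]; exact Submodule.zero_mem _
      | add x y _ _ hx hy => rw [map_add, add_mul]; exact Submodule.add_mem _ hx hy
      | smul r x _ hx => rw [map_smul, smul_mul_assoc]; exact Submodule.smul_mem _ _ hx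
    · exact hJ _ (Ideal.mul_mem_left _ _ (ind_jacobson_mem' _ n2 _ hz'))
    · exact hJ _ (Ideal.mul_mem_right _ _ (ind_jacobson_mem' _ n1 _ hz))
  induction a using MonoidAlgebra.induction_linear with
  | zero => exact Submodule.zero_mem _
  | add a b ha hb => exact Submodule.add_mem _ (ha trivial) (hb trivial)
  | single g r =>
    have := h1 (single g.1 r) (single g.2 1)
    rw [hi1, hi2, ind, ind, MonoidAlgebra.mapDomainAlgHom_apply, MonoidAlgebra.mapDomain_single,
      MonoidAlgebra.mapDomainAlgHom_apply, MonoidAlgebra.mapDomain_single,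
      MonoidAlgebra.single_mul_single] at this
    simpa using this

lemma ssDim_pi (G : Type) [Group G] [Finite G] (m : ℕ) :
    ssDim k (Fin m → G) ≤ ssDim k G ^ m := by
  induction m with
  | zero =>
    refine (ssDim_le_card _).trans ?_
    simp
  | succ m ih =>
    let f : (Fin (m + 1) → G) →* G × (Fin m → G) :=
      { toFun := fun x => (x 0, fun i => x i.succ)
        map_one' := rfl
        map_mul' := fun _ _ => rfl }
    have hf : Function.Injective f := by
      intro x y hxy
      have h := Prod.ext_iff.1 hxy
      funext i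
      refine Fin.cases h.1 (fun j => congrFun h.2 j) i
    calc ssDim k (Fin (m + 1) → G) ≤ ssDim k (G × (Fin m → G)) := ssDim_le_of_injective f hf
      _ ≤ ssDim k G * ssDim k (Fin m → G) := ssDim_prod _ _
      _ ≤ ssDim k G * ssDim k G ^ m := Nat.mul_le_mul_left _ ih
      _ = _ := by rw [pow_succ']

lemma ssDim_pi' (G Q : Type) [Group G] [Finite G] [Finite Q] :
    ssDim k (Q → G) ≤ ssDim k G ^ Nat.card Q := by
  have : Fintype Q := Fintype.ofFinite Q
  let e : Q ≃ Fin (Nat.card Q) := (Finite.equivFin Q)
  let f : (Q → G) →* (Fin (Nat.card Q) → G) :=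
    { toFun := fun x i => x (e.symm i)
      map_one' := rfl
      map_mul' := fun _ _ => rfl }
  have hf : Function.Injective f := by
    intro x y hxy
    funext q
    have := congrFun hxy (e q)
    simpa [f] using this
  exact (ssDim_le_of_injective f hf).trans (ssDim_pi G _)

end grp

section wreath
variable {G Q : Type} [Group G] [Group Q]

/-- The base group embedding. -/
def base (G Q : Type) [Group G] [Group Q] : (Q → G) →* RegularWreathProduct G Q where
  toFun f := ⟨f, 1⟩
  map_one' := rfl
  map_mul' _ _ := by ext <;> simp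

lemma decomp (w : RegularWreathProduct G Q) :
    w = base G Q w.left * RegularWreathProduct.inl w.right := by
  ext <;> simp [base]

lemma conj_base (q : Q) (f : Q → G) :
    RegularWreathProduct.inl q * base G Q f * (RegularWreathProduct.inl q)⁻¹ =
      base G Q (fun x => f (q⁻¹ * x)) := by
  ext x <;> simp [base]

variable [DecidableEq Q]

lemma conj_single (q a : Q) (g : G) :
    RegularWreathProduct.inl q * base G Q (Pi.mulSingle a g) * (RegularWreathProduct.inl q)⁻¹ =
      base G Q (Pi.mulSingle (q * a) g) := by
  rw [conj_base]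
  congr 1
  funext x
  by_cases h : x = q * a
  · subst h; simp
  · rw [Pi.mulSingle_eq_of_ne h, Pi.mulSingle_eq_of_ne]
    intro h'
    exact h (by rw [← h', mul_inv_cancel_left])

omit [DecidableEq Q] in
lemma inl_mem (hQ : commutator Q = ⊤) (n : ℕ) (q : Q) :
    (RegularWreathProduct.inl q : RegularWreathProduct G Q) ∈
      derivedSeries (RegularWreathProduct G Q) n := by
  have h : ∀ n, derivedSeries Q n = ⊤ := by
    intro n
    induction n with
    | zero => rfl
    | succ n ih => rw [derivedSeries_succ, ih]; exact hQ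
  apply map_derivedSeries_le_derivedSeries (RegularWreathProduct.inl (D := G) (Q := Q)) n
  rw [h n]
  exact ⟨q, trivial, rfl⟩

lemma mk_single (hQ : commutator Q = ⊤) (n : ℕ) (a b : Q) (g : G) :
    (QuotientGroup.mk (base G Q (Pi.mulSingle a g)) :
      RegularWreathProduct G Q ⧸ derivedSeries (RegularWreathProduct G Q) n) =
      QuotientGroup.mk (base G Q (Pi.mulSingle b g)) := by
  have h1 := conj_single (b * a⁻¹) a g
  rw [inv_mul_cancel_right] at h1
  rw [← h1]
  have h2 := (QuotientGroup.eq_one_iff (N := derivedSeries (RegularWreathProduct G Q) n) _).2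
    (inl_mem (G := G) hQ n (b * a⁻¹))
  rw [QuotientGroup.mk_mul, QuotientGroup.mk_mul, QuotientGroup.mk_inv, h2]
  simp

lemma commute_base [Finite Q] [Nontrivial Q] (hQ : commutator Q = ⊤) (n : ℕ) (f₁ f₂ : Q → G) :
    Commute (QuotientGroup.mk (base G Q f₁) :
      RegularWreathProduct G Q ⧸ derivedSeries (RegularWreathProduct G Q) n)
      (QuotientGroup.mk (base G Q f₂)) := by
  set φ : (Q → G) →* RegularWreathProduct G Q ⧸ derivedSeries (RegularWreathProduct G Q) n :=
    (QuotientGroup.mk' _).comp (base G Q) with hφ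
  have key : ∀ (a b : Q) (g h : G), Commute (φ (Pi.mulSingle a g)) (φ (Pi.mulSingle b h)) := by
    intro a b g h
    obtain ⟨c, hc⟩ := exists_ne a
    have h1 : φ (Pi.mulSingle b h) = φ (Pi.mulSingle c h) := mk_single hQ n b c h
    rw [h1]
    exact (Pi.mulSingle_commute hc.symm g h).map φ
  have key2 : ∀ (a : Q) (g : G) (f : Q → G), Commute (φ (Pi.mulSingle a g)) (φ f) := by
    intro a g f
    have : f ∈ (Subgroup.centralizer {φ (Pi.mulSingle a g)}).comap φ := by
      apply Subgroup.pi_mem_of_mulSingle_mem
      intro i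
      rw [Subgroup.mem_comap, Subgroup.mem_centralizer_singleton_iff]
      exact (key a i g (f i)).symm.eq
    rw [Subgroup.mem_comap, Subgroup.mem_centralizer_singleton_iff] at this
    exact this.symm
  have : f₁ ∈ (Subgroup.centralizer {φ f₂}).comap φ := by
    apply Subgroup.pi_mem_of_mulSingle_mem
    intro i
    rw [Subgroup.mem_comap, Subgroup.mem_centralizer_singleton_iff]
    exact (key2 i (f₁ i) f₂).eq
  rw [Subgroup.mem_comap, Subgroup.mem_centralizer_singleton_iff] at this
  exact this

omit [DecidableEq Q] in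
lemma mk_eq_base (hQ : commutator Q = ⊤) (n : ℕ) (w : RegularWreathProduct G Q) :
    (QuotientGroup.mk w :
      RegularWreathProduct G Q ⧸ derivedSeries (RegularWreathProduct G Q) n) =
      QuotientGroup.mk (base G Q w.left) := by
  have h2 := (QuotientGroup.eq_one_iff (N := derivedSeries (RegularWreathProduct G Q) n) _).2
    (inl_mem (G := G) hQ n w.right)
  conv_lhs => rw [decomp w]
  rw [QuotientGroup.mk_mul, h2, mul_one]

lemma derived_le [Finite Q] [Nontrivial Q] (hQ : commutator Q = ⊤) (n : ℕ) :
    commutator (RegularWreathProduct G Q) ≤ derivedSeries (RegularWreathProduct G Q) n := by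
  rw [commutator_def, Subgroup.commutator_le]
  intro a _ b _
  rw [← QuotientGroup.eq_one_iff, ← QuotientGroup.mk'_apply, map_commutatorElement,
    commutatorElement_eq_one_iff_commute, QuotientGroup.mk'_apply, QuotientGroup.mk'_apply,
    mk_eq_base hQ n a, mk_eq_base hQ n b]
  exact commute_base hQ n _ _

lemma perfect_commutator [Finite Q] [Nontrivial Q] (hQ : commutator Q = ⊤) :
    commutator (commutator (RegularWreathProduct G Q)) = ⊤ := by
  have h := derived_le (G := G) hQ 2
  rw [derivedSeries_succ, derivedSeries_one] at h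
  rw [← Subgroup.map_subtype_commutator] at h
  rw [eq_top_iff]
  intro x _
  obtain ⟨y, hy, hyx⟩ := h x.2
  have : y = x := Subtype.ext hyx
  rw [← this]
  exact hy

lemma index_le [Finite Q] [Nontrivial Q] [Finite G] (hQ : commutator Q = ⊤) :
    (commutator (RegularWreathProduct G Q)).index ≤ Nat.card G := by
  obtain ⟨q₀⟩ : Nonempty Q := inferInstance
  let σ : G →* RegularWreathProduct G Q := (base G Q).comp (MonoidHom.mulSingle (fun _ => G) q₀)
  let ψ : G →* RegularWreathProduct G Q ⧸ derivedSeries (RegularWreathProduct G Q) 1 :=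
    (QuotientGroup.mk' _).comp σ
  have hsur : Function.Surjective ψ := by
    intro z
    obtain ⟨w, rfl⟩ := QuotientGroup.mk_surjective z
    rw [mk_eq_base hQ 1 w]
    have : w.left ∈ (ψ.range).comap ((QuotientGroup.mk' _).comp (base G Q)) := by
      apply Subgroup.pi_mem_of_mulSingle_mem
      intro i
      exact ⟨w.left i, mk_single hQ 1 q₀ i _⟩
    exact this
  have h1 : Nat.card (RegularWreathProduct G Q ⧸ derivedSeries (RegularWreathProduct G Q) 1) ≤
      Nat.card G := Nat.card_le_card_of_surjective ψ hsur
  rw [derivedSeries_one] at h1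
  exact h1


/-- membership of differences in the derived subgroup -/
lemma diff_mem (hQ : commutator Q = ⊤) (a b : Q) (g : G) :
    base G Q (Pi.mulSingle a g * Pi.mulSingle b g⁻¹) ∈ commutator (RegularWreathProduct G Q) := by
  have h := mk_single (G := G) hQ 1 b a g⁻¹
  rw [← derivedSeries_one, ← QuotientGroup.eq_one_iff, map_mul, QuotientGroup.mk_mul, h,
    ← QuotientGroup.mk_mul, ← map_mul, ← Pi.mulSingle_mul, mul_inv_cancel]
  simp
  rfl

/-- The projection of the derived subgroup of the wreath product to `Q`. -/
def proj (G Q : Type) [Group G] [Group Q] : commutator (RegularWreathProduct G Q) →* Q :=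
  (RegularWreathProduct.rightHom).comp (commutator (RegularWreathProduct G Q)).subtype

omit [DecidableEq Q] in
lemma proj_surjective (hQ : commutator Q = ⊤) : Function.Surjective (proj G Q) := by
  intro q
  refine ⟨⟨RegularWreathProduct.inl q, ?_⟩, rfl⟩
  have := inl_mem (G := G) hQ 1 q
  rwa [derivedSeries_one] at this

lemma normal_le_ker [Finite Q] [IsSimpleGroup Q] (hQ : commutator Q = ⊤) (hc : 6 ≤ Nat.card Q)
    (M : Subgroup (commutator (RegularWreathProduct G Q))) (hM : M.Normal) (hM' : M ≠ ⊤) :
    M ≤ (proj G Q).ker := by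
  by_contra hcon
  apply hM'
  have hsur := proj_surjective (G := G) hQ
  -- every element of `Q` lifts to `M`
  have hlift : ∀ q : Q, ∃ m ∈ M, proj G Q m = q := by
    have h1 : (M.map (proj G Q)).Normal := hM.map _ hsur
    have h2 : M.map (proj G Q) = ⊤ := by
      refine (h1.eq_bot_or_eq_top).resolve_left ?_
      intro h
      exact hcon ((Subgroup.map_eq_bot_iff _).1 h)
    intro q
    have : q ∈ M.map (proj G Q) := by rw [h2]; trivial
    obtain ⟨m, hm, h⟩ := this
    exact ⟨m, hm, h⟩
  -- single commutators belong to `M`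
  have key : ∀ (q : Q) (g h : G), base G Q (Pi.mulSingle q ⁅g, h⁆) ∈ M.map (commutator (RegularWreathProduct G Q)).subtype := by
    intro q g h
    classical
    have : Fintype Q := Fintype.ofFinite Q
    rw [Nat.card_eq_fintype_card] at hc
    obtain ⟨s, hs⟩ := exists_ne (1 : Q)
    obtain ⟨a, ha⟩ : ∃ a : Q, a ∉ ({q, s⁻¹ * q} : Finset Q) := by
      by_contra hh
      push Not at hh
      have h1 : (Finset.univ : Finset Q) ⊆ {q, s⁻¹ * q} := fun x _ => hh x
      have h2 := Finset.card_le_card h1
      rw [Finset.card_univ] at h2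
      have h3 : ({q, s⁻¹ * q} : Finset Q).card ≤ 2 := Finset.card_le_two
      omega
    obtain ⟨b, hb⟩ : ∃ b : Q, b ∉ ({q, a, s * q, s * a} : Finset Q) := by
      by_contra hh
      push Not at hh
      have h1 : (Finset.univ : Finset Q) ⊆ {q, a, s * q, s * a} := fun x _ => hh x
      have h2 := Finset.card_le_card h1
      rw [Finset.card_univ] at h2
      have h3 : ({q, a, s * q, s * a} : Finset Q).card ≤ 4 := Finset.card_le_four
      omega
    simp only [Finset.mem_insert, Finset.mem_singleton, not_or] at ha hb
    obtain ⟨ha1, ha2⟩ := ha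
    obtain ⟨hb1, hb2, hb3, hb4⟩ := hb
    have hsq : s * q ≠ q := fun h => hs (by simpa using h)
    have hsa : s * a ≠ q := fun h => ha2 (by rw [← h, inv_mul_cancel_left])
    obtain ⟨m, hm, hms⟩ := hlift s
    let n : (commutator (RegularWreathProduct G Q)) := ⟨base G Q (Pi.mulSingle q g * Pi.mulSingle a g⁻¹), diff_mem hQ q a g⟩
    let n' : (commutator (RegularWreathProduct G Q)) := ⟨base G Q (Pi.mulSingle q h * Pi.mulSingle b h⁻¹), diff_mem hQ q b h⟩
    -- `m n m⁻¹` commutes with `n'`
    have hcomm : Commute (m * n * m⁻¹) n' := by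
      have hr : (m : RegularWreathProduct G Q).right = s := hms
      apply Subtype.ext
      have e1 : (m * n * m⁻¹ : RegularWreathProduct G Q) = base G Q
          (fun y => (m : RegularWreathProduct G Q).left y *
            (Pi.mulSingle q g * Pi.mulSingle a g⁻¹ : Q → G) (s⁻¹ * y) *
            ((m : RegularWreathProduct G Q).left y)⁻¹) := by
        ext y
        · simp [base, n, hr]
        · simp [base, n]
      show (m * n * m⁻¹ : RegularWreathProduct G Q) * (n' : RegularWreathProduct G Q) =
        (n' : RegularWreathProduct G Q) * (m * n * m⁻¹ : RegularWreathProduct G Q)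
      rw [e1]
      show base G Q _ * base G Q _ = base G Q _ * base G Q _
      rw [← map_mul, ← map_mul]
      congr 1
      funext y
      simp only [Pi.mul_apply]
      by_cases hy : y = q ∨ y = b
      · have h1 : (Pi.mulSingle q g : Q → G) (s⁻¹ * y) = 1 := by
          apply Pi.mulSingle_eq_of_ne
          intro h'
          have : y = s * q := by rw [← h', mul_inv_cancel_left]
          rcases hy with hy | hy
          · exact hsq (this ▸ hy)
          · exact hb3 (hy ▸ this)
        have h2 : (Pi.mulSingle a g⁻¹ : Q → G) (s⁻¹ * y) = 1 := by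
          apply Pi.mulSingle_eq_of_ne
          intro h'
          have : y = s * a := by rw [← h', mul_inv_cancel_left]
          rcases hy with hy | hy
          · exact hsa (this ▸ hy)
          · exact hb4 (hy ▸ this)
        rw [h1, h2]
        simp
      · push Not at hy
        rw [Pi.mulSingle_eq_of_ne hy.1, Pi.mulSingle_eq_of_ne hy.2]
        simp
    have hmem : ⁅n, n'⁆ ∈ M := by
      rw [← QuotientGroup.eq_one_iff, ← QuotientGroup.mk'_apply, map_commutatorElement,
        commutatorElement_eq_one_iff_commute]
      have e : QuotientGroup.mk' M n = QuotientGroup.mk' M (m * n * m⁻¹) := by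
        have hm1 : QuotientGroup.mk' M m = 1 := (QuotientGroup.eq_one_iff m).2 hm
        rw [map_mul, map_mul, map_inv, hm1]
        simp
      rw [e]
      exact hcomm.map (QuotientGroup.mk' M)
    refine ⟨⁅n, n'⁆, hmem, ?_⟩
    rw [map_commutatorElement]
    show ⁅base G Q _, base G Q _⁆ = _
    rw [← map_commutatorElement]
    congr 1
    funext y
    rw [commutatorElement_def]
    simp only [Pi.mul_apply, Pi.inv_apply]
    by_cases hyq : y = q
    · subst hyq
      rw [Pi.mulSingle_eq_same, Pi.mulSingle_eq_same, Pi.mulSingle_eq_same,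
        Pi.mulSingle_eq_of_ne (Ne.symm ha1), Pi.mulSingle_eq_of_ne (Ne.symm hb1)]
      simp [commutatorElement_def]
    · rw [Pi.mulSingle_eq_of_ne hyq, Pi.mulSingle_eq_of_ne hyq, Pi.mulSingle_eq_of_ne hyq]
      by_cases hya : y = a
      · subst hya
        rw [Pi.mulSingle_eq_of_ne (Ne.symm hb2)]
        simp
      · rw [Pi.mulSingle_eq_of_ne hya]
        simp
  -- hence commutators of elements of the base group
  have key2 : ∀ f₁ f₂ : Q → G, base G Q ⁅f₁, f₂⁆ ∈ M.map (commutator (RegularWreathProduct G Q)).subtype := by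
    intro f₁ f₂
    have : ⁅f₁, f₂⁆ ∈ (M.map (commutator (RegularWreathProduct G Q)).subtype).comap (base G Q) := by
      apply Subgroup.pi_mem_of_mulSingle_mem
      intro i
      exact key i (f₁ i) (f₂ i)
    exact this
  -- commutators of arbitrary elements
  have key3 : ∀ x y : (commutator (RegularWreathProduct G Q)), ⁅x, y⁆ ∈ M := by
    have red : ∀ x : (commutator (RegularWreathProduct G Q)), ∃ z : (commutator (RegularWreathProduct G Q)), proj G Q z = 1 ∧ QuotientGroup.mk' M x = QuotientGroup.mk' M z := by
      intro x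
      obtain ⟨m, hm, hms⟩ := hlift (proj G Q x)
      refine ⟨x * m⁻¹, by rw [map_mul, map_inv, hms, mul_inv_cancel], ?_⟩
      have hm1 : QuotientGroup.mk' M m = 1 := (QuotientGroup.eq_one_iff m).2 hm
      rw [map_mul, map_inv, hm1]
      simp
    intro x y
    obtain ⟨x', hx', hx⟩ := red x
    obtain ⟨y', hy', hy⟩ := red y
    rw [← QuotientGroup.eq_one_iff, ← QuotientGroup.mk'_apply, map_commutatorElement, hx, hy,
      ← map_commutatorElement, QuotientGroup.mk'_apply, QuotientGroup.eq_one_iff]
    have e1 : (x' : RegularWreathProduct G Q) = base G Q (x' : RegularWreathProduct G Q).left := by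
      ext
      · rfl
      · exact hx'
    have e2 : (y' : RegularWreathProduct G Q) = base G Q (y' : RegularWreathProduct G Q).left := by
      ext
      · rfl
      · exact hy'
    obtain ⟨z, hz, hz'⟩ := key2 (x' : RegularWreathProduct G Q).left (y' : RegularWreathProduct G Q).left
    have : z = ⁅x', y'⁆ := by
      apply Subtype.ext
      rw [map_commutatorElement, ← e1, ← e2] at hz'
      exact hz'
    rw [← this]
    exact hz
  have h4 : commutator (commutator (RegularWreathProduct G Q)) ≤ M := by
    refine Subgroup.commutator_le.2 ?_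
    intro x _ y _
    exact key3 x y
  have : Nontrivial Q := inferInstance
  exact top_le_iff.1 ((perfect_commutator (G := G) hQ).ge.trans h4)

end wreath

section quot

/-- The class of groups in the theorem: perfect groups `Y` with trivial centre and without
nontrivial normal `p`-subgroups that have a largest proper normal subgroup, with quotient `A_l`,
`l ≥ max 5 L`. -/
def Cls (p L : ℕ) (Y : Type) [Group Y] : Prop :=
  Group.IsPerfect Y ∧ Subgroup.center Y = ⊥ ∧
    (∀ P : Subgroup Y, P.Normal → IsPGroup p P → P = ⊥) ∧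
    ∃ l : ℕ, 5 ≤ l ∧ L ≤ l ∧ ∃ f : Y →* alternatingGroup (Fin l), Function.Surjective f ∧
      ∀ M : Subgroup Y, M.Normal → M ≠ ⊤ → M ≤ f.ker

lemma exists_max_normal_p (p : ℕ) (X : Type) [Group X] [Finite X] :
    ∃ P : Subgroup X, P.Normal ∧ IsPGroup p P ∧
      ∀ R : Subgroup X, R.Normal → IsPGroup p R → P ≤ R → R = P := by
  have hfin : Set.Finite {P : Subgroup X | P.Normal ∧ IsPGroup p P} := Set.toFinite _
  obtain ⟨P, hP, hmax⟩ := hfin.exists_maximal ⟨⊥, inferInstance, IsPGroup.of_bot⟩
  refine ⟨P, hP.1, hP.2, fun R hR hR' hle => ?_⟩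
  exact le_antisymm (hmax ⟨hR, hR'⟩ hle) hle

/-- `G / O_p(G)` has no nontrivial normal `p`-subgroup. -/
lemma exists_quot (p : ℕ) (X : Type) [Group X] [Finite X] :
    ∃ (P : Subgroup X) (_ : P.Normal), IsPGroup p P ∧
      ∀ R : Subgroup (X ⧸ P), R.Normal → IsPGroup p R → R = ⊥ := by
  obtain ⟨P, hP, hPp, hmax⟩ := exists_max_normal_p p X
  refine ⟨P, hP, hPp, ?_⟩
  intro R hR hRp
  have h1 : IsPGroup p (R.comap (QuotientGroup.mk' P)) := by
    apply hRp.comap_of_ker_isPGroup
    rw [QuotientGroup.ker_mk']
    exact hPp
  have h2 : R.comap (QuotientGroup.mk' P) = P := by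
    apply hmax _ (hR.comap _) h1
    intro x hx
    rw [Subgroup.mem_comap]
    have : QuotientGroup.mk' P x = 1 := (QuotientGroup.eq_one_iff x).2 hx
    rw [this]
    exact R.one_mem
  rw [eq_bot_iff]
  intro y hy
  obtain ⟨x, rfl⟩ := QuotientGroup.mk'_surjective P y
  have : x ∈ P := by rw [← h2]; exact hy
  rw [Subgroup.mem_bot]
  exact (QuotientGroup.eq_one_iff x).2 this

/-- A perfect group without normal `p`-subgroups keeps this property modulo its centre. -/
lemma no_p_quot_center (p : ℕ) [Fact p.Prime] (Y : Type) [Group Y] [Finite Y]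
    (hY : ∀ P : Subgroup Y, P.Normal → IsPGroup p P → P = ⊥)
    (R : Subgroup (Y ⧸ Subgroup.center Y)) (hR : R.Normal) (hRp : IsPGroup p R) : R = ⊥ := by
  classical
  set π := QuotientGroup.mk' (Subgroup.center Y) with hπ
  have hR1 : (R.comap π).Normal := hR.comap _
  -- the preimage is nilpotent
  have hnil : Group.IsNilpotent (R.comap π) := by
    have h1 : Group.IsNilpotent R := hRp.isNilpotent
    refine Subgroup.isNilpotent_of_ker_le_center (π.subgroupComap R) ?_
    intro x hx
    rw [Subgroup.mem_center_iff]
    intro y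
    have hx2 : (x : Y) ∈ Subgroup.center Y := by
      have h3 : π (x : Y) = 1 := by
        have := congrArg Subtype.val (MonoidHom.mem_ker.1 hx)
        exact this
      exact (QuotientGroup.eq_one_iff _).1 h3
    apply Subtype.ext
    exact Subgroup.mem_center_iff.1 hx2 y
  obtain ⟨S⟩ : Nonempty (Sylow p (R.comap π)) := inferInstance
  have hSn : (S : Subgroup (R.comap π)).Normal := inferInstance
  have hSc : (S : Subgroup (R.comap π)).Characteristic := S.characteristic_of_normal hSn
  have hSm : ((S : Subgroup (R.comap π)).map (R.comap π).subtype).Normal :=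
    ConjAct.normal_of_characteristic_of_normal
  have hSp : IsPGroup p ((S : Subgroup (R.comap π)).map (R.comap π).subtype) :=
    S.isPGroup'.map _
  have hS0 := hY _ hSm hSp
  have hS1 : (S : Subgroup (R.comap π)) = ⊥ := by
    rw [Subgroup.map_eq_bot_iff_of_injective] at hS0
    · exact hS0
    · exact (R.comap π).subtype_injective
  -- so `p` does not divide the order
  have hcard : ¬ p ∣ Nat.card (R.comap π) := by
    intro hdvd
    have h1 := S.dvd_card_of_dvd_card hdvd
    rw [hS1] at h1
    simp at h1
    exact (Fact.out : p.Prime).one_lt.ne' h1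
  rw [eq_bot_iff]
  intro r hr
  rw [Subgroup.mem_bot]
  obtain ⟨x, rfl⟩ := QuotientGroup.mk'_surjective (Subgroup.center Y) r
  have hord : orderOf (⟨π x, hr⟩ : R) ∣ Nat.card (R.comap π) := by
    have h1 : orderOf (⟨π x, hr⟩ : R) ∣ orderOf (⟨x, hr⟩ : R.comap π) := by
      have : (⟨π x, hr⟩ : R) = (π.subgroupComap R) ⟨x, hr⟩ := rfl
      rw [this]
      exact orderOf_map_dvd _ _
    exact h1.trans (orderOf_dvd_natCard _)
  obtain ⟨n, hn⟩ := IsPGroup.iff_orderOf.1 hRp ⟨π x, hr⟩
  rw [hn] at hord
  rcases Nat.eq_zero_or_pos n with h0 | h0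
  · rw [h0, pow_zero, orderOf_eq_one_iff] at hn
    exact congrArg Subtype.val hn
  · exact absurd ((dvd_pow_self p h0.ne').trans hord) hcard

variable {G Q : Type} [Group G] [Group Q] [DecidableEq Q]

lemma no_p_wreath (p : ℕ) [Fact p.Prime] [Finite Q] [Finite G] [IsSimpleGroup Q]
    (hQ : commutator Q = ⊤) (hc : 6 ≤ Nat.card Q)
    (hG : ∀ P : Subgroup G, P.Normal → IsPGroup p P → P = ⊥)
    (P : Subgroup (commutator (RegularWreathProduct G Q))) (hP : P.Normal) (hPp : IsPGroup p P) :
    P = ⊥ := by
  have hsur := proj_surjective (G := G) hQ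
  have hnt : Nontrivial Q := inferInstance
  have hPtop : P ≠ ⊤ := by
    intro h
    have h1 : IsPGroup p Q := by
      have h2 : IsPGroup p (⊤ : Subgroup (commutator (RegularWreathProduct G Q))) := h ▸ hPp
      have h3 : IsPGroup p (commutator (RegularWreathProduct G Q)) :=
        h2.of_equiv Subgroup.topEquiv
      exact h3.of_surjective _ hsur
    have h2 : Group.IsNilpotent Q := h1.isNilpotent
    have : Group.IsPerfect Q := ⟨hQ⟩
    exact Group.IsPerfect.not_isNilpotent Q h2
  have hPker := normal_le_ker hQ hc P hP hPtop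
  have key : ∀ x ∈ P, ∀ y : Q, (x : RegularWreathProduct G Q).left y = 1 := by
    intro x hx y
    let ev : P →* G :=
      { toFun := fun z => (z : RegularWreathProduct G Q).left y
        map_one' := rfl
        map_mul' := by
          intro z w
          have hz : ((z : commutator (RegularWreathProduct G Q)) :
            RegularWreathProduct G Q).right = 1 := hPker z.2
          simp [hz] }
    have hn : ev.range.Normal := by
      constructor
      rintro _ ⟨z, rfl⟩ g
      obtain ⟨y', hy'⟩ := exists_ne y
      let n : commutator (RegularWreathProduct G Q) :=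
        ⟨base G Q (Pi.mulSingle y g * Pi.mulSingle y' g⁻¹), diff_mem hQ y y' g⟩
      refine ⟨⟨n * z * n⁻¹, hP.conj_mem _ z.2 n⟩, ?_⟩
      have hz : ((z : commutator (RegularWreathProduct G Q)) :
        RegularWreathProduct G Q).right = 1 := hPker z.2
      have h1 : (Pi.mulSingle y' g⁻¹ : Q → G) y = 1 := Pi.mulSingle_eq_of_ne hy'.symm _
      simp [ev, n, base, hz, h1]
    have hp : IsPGroup p ev.range := hPp.of_surjective _ ev.rangeRestrict_surjective
    have h0 := hG _ hn hp
    have : ev ⟨x, hx⟩ ∈ ev.range := ⟨_, rfl⟩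
    rw [h0] at this
    exact this
  rw [eq_bot_iff]
  intro x hx
  rw [Subgroup.mem_bot]
  apply Subtype.ext
  apply RegularWreathProduct.ext
  · funext y
    exact key x hx y
  · exact hPker hx

lemma card_center_le [Finite Q] [Finite G] [IsSimpleGroup Q]
    (hQ : commutator Q = ⊤) (hc : 6 ≤ Nat.card Q) :
    Nat.card (Subgroup.center (commutator (RegularWreathProduct G Q))) ≤ Nat.card G := by
  have hsur := proj_surjective (G := G) hQ
  have hnt : Nontrivial Q := inferInstance
  have htop : Subgroup.center (commutator (RegularWreathProduct G Q)) ≠ ⊤ := by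
    intro h
    have h1 : Group.IsPerfect (commutator (RegularWreathProduct G Q)) := ⟨perfect_commutator hQ⟩
    have h2 : IsMulCommutative (commutator (RegularWreathProduct G Q)) := by
      refine ⟨⟨fun a b => ?_⟩⟩
      have : b ∈ Subgroup.center (commutator (RegularWreathProduct G Q)) := by rw [h]; trivial
      exact Subgroup.mem_center_iff.1 this a
    have h3 : Subsingleton (commutator (RegularWreathProduct G Q)) := inferInstance
    have h4 : Subsingleton Q := hsur.subsingleton
    exact not_subsingleton Q h4
  have hker := normal_le_ker hQ hc _ (inferInstance) htop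
  have hconst : ∀ x ∈ Subgroup.center (commutator (RegularWreathProduct G Q)), ∀ q : Q,
      (x : RegularWreathProduct G Q).left q = (x : RegularWreathProduct G Q).left 1 := by
    intro x hx q
    have hq : (RegularWreathProduct.inl q : RegularWreathProduct G Q) ∈
        commutator (RegularWreathProduct G Q) := by
      have := inl_mem (G := G) hQ 1 q
      rwa [derivedSeries_one] at this
    have h1 := Subgroup.mem_center_iff.1 hx ⟨_, hq⟩
    have h2 := congrArg (fun z : commutator (RegularWreathProduct G Q) =>
      (z : RegularWreathProduct G Q).left q) h1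
    simpa using h2.symm
  refine Nat.card_le_card_of_injective
    (fun x : Subgroup.center (commutator (RegularWreathProduct G Q)) =>
      (x : RegularWreathProduct G Q).left 1) ?_
  intro x y hxy
  apply Subtype.ext
  apply Subtype.ext
  apply RegularWreathProduct.ext
  · funext q
    rw [hconst x x.2 q, hconst y y.2 q]
    exact hxy
  · exact (hker x.2 : _ = _).trans (hker y.2 : _ = _).symm

lemma cls_quot_center (p L l : ℕ) [Fact p.Prime] (hl : 5 ≤ l) (hL : L ≤ l) [Finite G]
    (hG : ∀ P : Subgroup G, P.Normal → IsPGroup p P → P = ⊥) :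
    Cls p L (commutator (RegularWreathProduct G (alternatingGroup (Fin l))) ⧸
      Subgroup.center (commutator (RegularWreathProduct G (alternatingGroup (Fin l))))) := by
  classical
  have hl' : 5 ≤ Nat.card (Fin l) := by simpa using hl
  have hsimple : IsSimpleGroup (alternatingGroup (Fin l)) := alternatingGroup.isSimpleGroup hl'
  have hQ : commutator (alternatingGroup (Fin l)) = ⊤ := commutator_alternatingGroup_eq_top hl'
  have hcard : 6 ≤ Nat.card (alternatingGroup (Fin l)) := by
    have h1 : 2 * Nat.card (alternatingGroup (Fin l)) = (Nat.card (Fin l)).factorial := by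
      have : Nontrivial (Fin l) := Fin.nontrivial_iff_two_le.2 (by omega)
      rw [Nat.card_eq_fintype_card, two_mul_card_alternatingGroup, Fintype.card_perm,
        Nat.card_eq_fintype_card]
    have h2 : (5).factorial ≤ (Nat.card (Fin l)).factorial := Nat.factorial_le hl'
    have h3 : (5).factorial = 120 := rfl
    omega
  have hnt : Nontrivial (alternatingGroup (Fin l)) := inferInstance
  have hsur := proj_surjective (G := G) hQ
  have hperf : Group.IsPerfect
      (commutator (RegularWreathProduct G (alternatingGroup (Fin l)))) := ⟨perfect_commutator hQ⟩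
  set X := commutator (RegularWreathProduct G (alternatingGroup (Fin l))) with hX
  have hZtop : Subgroup.center X ≠ ⊤ := by
    intro h
    have h2 : IsMulCommutative X := by
      refine ⟨⟨fun a b => ?_⟩⟩
      have : b ∈ Subgroup.center X := by rw [h]; trivial
      exact Subgroup.mem_center_iff.1 this a
    have h3 : Subsingleton X := inferInstance
    have h4 : Subsingleton (alternatingGroup (Fin l)) := hsur.subsingleton
    exact not_subsingleton _ h4
  have hZker := normal_le_ker hQ hcard _ (inferInstance : (Subgroup.center X).Normal) hZtop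
  refine ⟨inferInstance, Group.IsPerfect.center_quotient_center_eq_bot X, ?_, l, hl, hL,
    QuotientGroup.lift _ (proj G (alternatingGroup (Fin l))) hZker, ?_, ?_⟩
  · intro R hR hRp
    exact no_p_quot_center p X (no_p_wreath p hQ hcard hG) R hR hRp
  · intro q
    obtain ⟨x, rfl⟩ := hsur q
    exact ⟨QuotientGroup.mk x, rfl⟩
  · intro M hM hMt
    have h1 : M.comap (QuotientGroup.mk' (Subgroup.center X)) ≠ ⊤ := by
      intro h
      apply hMt
      rw [eq_top_iff]
      intro y _
      obtain ⟨x, rfl⟩ := QuotientGroup.mk'_surjective (Subgroup.center X) y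
      have : x ∈ M.comap (QuotientGroup.mk' (Subgroup.center X)) := by rw [h]; trivial
      exact this
    have h2 := normal_le_ker hQ hcard _ (hM.comap (QuotientGroup.mk' (Subgroup.center X))) h1
    intro y hy
    obtain ⟨x, rfl⟩ := QuotientGroup.mk'_surjective (Subgroup.center X) y
    exact h2 hy

end quot


/-- The `p'`-part of a natural number. -/
def pPrimePart (p n : ℕ) : ℕ := n / p ^ n.factorization p

lemma pPrimePart_mul (p a b : ℕ) : pPrimePart p (a * b) = pPrimePart p a * pPrimePart p b :=
  Nat.ordCompl_mul a b p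

lemma pPrimePart_le (p n : ℕ) : pPrimePart p n ≤ n := Nat.div_le_self _ _

lemma pPrimePart_pos (p : ℕ) {n : ℕ} (hn : n ≠ 0) : 1 ≤ pPrimePart p n :=
  Nat.ordCompl_pos p hn

lemma pPrimePart_pow (p a m : ℕ) : pPrimePart p (a ^ m) = pPrimePart p a ^ m := by
  induction m with
  | zero => simp [pPrimePart]
  | succ m ih => rw [pow_succ, pPrimePart_mul, ih, pow_succ]

lemma pPrimePart_prime_pow (p n : ℕ) (hp : p.Prime) : pPrimePart p (p ^ n) = 1 := by
  unfold pPrimePart
  rw [hp.factorization_pow, Finsupp.single_eq_same, Nat.div_self (pow_pos hp.pos n)]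

lemma card_alt (l : ℕ) (hl : 5 ≤ l) : l ≤ Nat.card (alternatingGroup (Fin l)) := by
  have h1 : 2 * Nat.card (alternatingGroup (Fin l)) = l.factorial := by
    have : Nontrivial (Fin l) := Fin.nontrivial_iff_two_le.2 (by omega)
    rw [Nat.card_eq_fintype_card, two_mul_card_alternatingGroup, Fintype.card_perm,
      Fintype.card_fin]
  obtain ⟨j, rfl⟩ : ∃ j, l = j + 1 := ⟨l - 1, by omega⟩
  rw [Nat.factorial_succ] at h1
  have h2 : j ≤ j.factorial := Nat.self_le_factorial j
  nlinarith

/-- The key inequality. -/
lemma key_ineq (p : ℕ) [Fact p.Prime] (k : Type) [Field k] (L l : ℕ) (hl : 5 ≤ l) (hL : L ≤ l)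
    (G : Type) [Group G] [Finite G]
    (hG : ∀ P : Subgroup G, P.Normal → IsPGroup p P → P = ⊥) :
    ∃ (Y : Type) (_ : Group Y) (_ : Finite Y), Cls p L Y ∧
      ssDim k Y ≤ Nat.card (alternatingGroup (Fin l)) *
        ssDim k G ^ Nat.card (alternatingGroup (Fin l)) ∧
      pPrimePart p (Nat.card G) ^ Nat.card (alternatingGroup (Fin l)) ≤
        pPrimePart p (Nat.card Y) * (Nat.card G * Nat.card G) := by
  classical
  have hl' : 5 ≤ Nat.card (Fin l) := by simpa using hl
  have hQ : commutator (alternatingGroup (Fin l)) = ⊤ := commutator_alternatingGroup_eq_top hl'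
  have hsimple : IsSimpleGroup (alternatingGroup (Fin l)) := alternatingGroup.isSimpleGroup hl'
  have hnt : Nontrivial (alternatingGroup (Fin l)) := inferInstance
  have hcard : 6 ≤ Nat.card (alternatingGroup (Fin l)) := by
    have h1 : 2 * Nat.card (alternatingGroup (Fin l)) = (Nat.card (Fin l)).factorial := by
      have : Nontrivial (Fin l) := Fin.nontrivial_iff_two_le.2 (by omega)
      rw [Nat.card_eq_fintype_card, two_mul_card_alternatingGroup, Fintype.card_perm,
        Nat.card_eq_fintype_card]
    have h2 : (5).factorial ≤ (Nat.card (Fin l)).factorial := Nat.factorial_le hl'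
    have h3 : (5).factorial = 120 := rfl
    omega
  set X := commutator (RegularWreathProduct G (alternatingGroup (Fin l))) with hX
  refine ⟨X ⧸ Subgroup.center X, inferInstance, inferInstance,
    cls_quot_center p L l hl hL hG, ?_, ?_⟩
  · have h1 : ssDim k (X ⧸ Subgroup.center X) ≤ ssDim k X :=
      ssDim_le_of_surjective (QuotientGroup.mk' _) (QuotientGroup.mk'_surjective _)
    have h2 := ssDim_le_index (k := k) (proj G (alternatingGroup (Fin l))).ker
    have h3 : (proj G (alternatingGroup (Fin l))).ker.index =
        Nat.card (alternatingGroup (Fin l)) := by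
      rw [Subgroup.index_ker, MonoidHom.range_eq_top.2 (proj_surjective hQ)]
      exact Nat.card_congr Subgroup.topEquiv.toEquiv
    let f : (proj G (alternatingGroup (Fin l))).ker →* ((alternatingGroup (Fin l)) → G) :=
      { toFun := fun x => (x : RegularWreathProduct G (alternatingGroup (Fin l))).left
        map_one' := rfl
        map_mul' := by
          intro x y
          have hx : ((x : commutator (RegularWreathProduct G (alternatingGroup (Fin l)))) :
            RegularWreathProduct G (alternatingGroup (Fin l))).right = 1 := x.2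
          funext z
          simp [hx] }
    have hf : Function.Injective f := by
      intro x y hxy
      have hx : ((x : commutator (RegularWreathProduct G (alternatingGroup (Fin l)))) :
        RegularWreathProduct G (alternatingGroup (Fin l))).right = 1 := x.2
      have hy : ((y : commutator (RegularWreathProduct G (alternatingGroup (Fin l)))) :
        RegularWreathProduct G (alternatingGroup (Fin l))).right = 1 := y.2
      apply Subtype.ext
      apply Subtype.ext
      apply RegularWreathProduct.ext
      · exact hxy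
      · rw [hx, hy]
    have h4 : ssDim k (proj G (alternatingGroup (Fin l))).ker ≤
        ssDim k G ^ Nat.card (alternatingGroup (Fin l)) :=
      (ssDim_le_of_injective f hf).trans (ssDim_pi' G (alternatingGroup (Fin l)))
    rw [h3] at h2
    exact h1.trans (h2.trans (Nat.mul_le_mul_left _ h4))
  · -- orders
    have h1 : Nat.card X = Nat.card (X ⧸ Subgroup.center X) * Nat.card (Subgroup.center X) :=
      Subgroup.card_eq_card_quotient_mul_card_subgroup _
    have h3 : Nat.card X * X.index = Nat.card G ^ Nat.card (alternatingGroup (Fin l)) *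
        Nat.card (alternatingGroup (Fin l)) := by
      rw [Subgroup.card_mul_index, RegularWreathProduct.card]
    have h4 : pPrimePart p (Nat.card G) ^ Nat.card (alternatingGroup (Fin l)) *
        pPrimePart p (Nat.card (alternatingGroup (Fin l))) =
        pPrimePart p (Nat.card (X ⧸ Subgroup.center X)) *
          (pPrimePart p (Nat.card (Subgroup.center X)) * pPrimePart p X.index) := by
      rw [← mul_assoc, ← pPrimePart_mul, ← h1, ← pPrimePart_mul, h3, pPrimePart_mul,
        pPrimePart_pow]
    have h5 : 1 ≤ pPrimePart p (Nat.card (alternatingGroup (Fin l))) :=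
      pPrimePart_pos p (Nat.card_pos).ne'
    have h6 : pPrimePart p X.index ≤ Nat.card G := (pPrimePart_le _ _).trans (index_le hQ)
    have h7 : pPrimePart p (Nat.card (Subgroup.center X)) ≤ Nat.card G :=
      (pPrimePart_le _ _).trans (card_center_le hQ hcard)
    calc pPrimePart p (Nat.card G) ^ Nat.card (alternatingGroup (Fin l))
        ≤ pPrimePart p (Nat.card G) ^ Nat.card (alternatingGroup (Fin l)) *
            pPrimePart p (Nat.card (alternatingGroup (Fin l))) := Nat.le_mul_of_pos_right _ h5
      _ = _ := h4
      _ ≤ _ := Nat.mul_le_mul_left _ (Nat.mul_le_mul h7 h6)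

/-- The main step for groups without normal `p`-subgroups. -/
lemma main_step (p : ℕ) [Fact p.Prime] (k : Type) [Field k] (α : ℝ) (L : ℕ)
    (h : ∀ ε : ℝ, 0 < ε → ∃ c : ℝ, 0 < c ∧ ∀ (X : Type) [Group X] [Finite X], Cls p L X →
      c * (pPrimePart p (Nat.card X) : ℝ) ^ (α - ε) ≤ ssDim k X)
    (G : Type) [Group G] [Finite G]
    (hG : ∀ P : Subgroup G, P.Normal → IsPGroup p P → P = ⊥) :
    (pPrimePart p (Nat.card G) : ℝ) ^ α ≤ ssDim k G := by
  have hg1 : (1 : ℝ) ≤ (pPrimePart p (Nat.card G) : ℝ) := by
    exact_mod_cast pPrimePart_pos p (Nat.card_pos (α := G)).ne'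
  have hS1 : (1 : ℝ) ≤ (ssDim k G : ℝ) := by exact_mod_cast ssDim_pos G
  by_contra hcon
  push Not at hcon
  set g : ℝ := (pPrimePart p (Nat.card G) : ℝ) with hg
  set S : ℝ := (ssDim k G : ℝ) with hS
  have hα : 0 < α := by
    by_contra hα
    push Not at hα
    have := Real.rpow_le_one_of_one_le_of_nonpos hg1 hα
    linarith
  -- choose `ε`
  obtain ⟨ε, hε0, hεα, hε⟩ : ∃ ε : ℝ, 0 < ε ∧ ε < α ∧ S < g ^ (α - ε) := by
    have hcont : ContinuousAt (fun x : ℝ => g ^ x) α :=
      (Real.continuous_const_rpow (by linarith : g ≠ 0)).continuousAt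
    have hev := hcont.eventually (lt_mem_nhds hcon)
    rw [Metric.eventually_nhds_iff] at hev
    obtain ⟨δ, hδ, hev⟩ := hev
    refine ⟨min (δ / 2) (α / 2), by positivity, ?_, ?_⟩
    · exact lt_of_le_of_lt (min_le_right _ _) (by linarith)
    · apply hev
      rw [Real.dist_eq]
      have h0 : 0 < min (δ / 2) (α / 2) := by positivity
      have h1 : min (δ / 2) (α / 2) ≤ δ / 2 := min_le_left _ _
      rw [show α - min (δ / 2) (α / 2) - α = -(min (δ / 2) (α / 2)) by ring, abs_neg,
        abs_of_pos h0]
      linarith
  obtain ⟨c, hc, hX⟩ := h ε hε0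
  set T : ℝ := g ^ (α - ε) with hT
  set n : ℝ := ((Nat.card G * Nat.card G : ℕ) : ℝ) with hn
  have hn1 : (1 : ℝ) ≤ n := by
    rw [hn]
    exact_mod_cast Nat.mul_pos (Nat.card_pos (α := G)) (Nat.card_pos (α := G))
  have hS0 : 0 < S := by linarith
  have hT0 : 0 < T := by linarith
  set K : ℝ := n ^ (α - ε) / c with hK
  have hK0 : 0 < K := by positivity
  have hr : 1 < T / S := by rwa [lt_div_iff₀ hS0, one_mul]
  have hlim := tendsto_pow_const_div_const_pow_of_one_lt 1 hr
  have hev := hlim.eventually (gt_mem_nhds (show (0 : ℝ) < 1 / K by positivity))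
  obtain ⟨m₀, hm₀⟩ := Filter.eventually_atTop.1 hev
  set l := max 5 (max L m₀) with hl
  have hl5 : 5 ≤ l := le_max_left _ _
  have hlL : L ≤ l := (le_max_left _ _).trans (le_max_right _ _)
  have hlm : m₀ ≤ l := (le_max_right _ _).trans (le_max_right _ _)
  obtain ⟨Y, i1, i2, hY, hs, ho⟩ := key_ineq p k L l hl5 hlL G hG
  set m := Nat.card (alternatingGroup (Fin l)) with hm
  have hml : m₀ ≤ m := hlm.trans (card_alt l hl5)
  have hm1 := hm₀ m hml
  have hYb := hX Y hY
  have hs' : (ssDim k Y : ℝ) ≤ m * S ^ m := by
    rw [hS]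
    exact_mod_cast hs
  have ho' : g ^ m ≤ (pPrimePart p (Nat.card Y) : ℝ) * n := by
    rw [hg, hn]
    exact_mod_cast ho
  have e1 : (g ^ m) ^ (α - ε) ≤ ((pPrimePart p (Nat.card Y) : ℝ) * n) ^ (α - ε) :=
    Real.rpow_le_rpow (by positivity) ho' (by linarith)
  have e2 : (g ^ m) ^ (α - ε) = T ^ m := by
    rw [hT, ← Real.rpow_natCast, ← Real.rpow_mul (by linarith), mul_comm,
      Real.rpow_mul (by linarith), Real.rpow_natCast]
  have e3 : ((pPrimePart p (Nat.card Y) : ℝ) * n) ^ (α - ε) =
      (pPrimePart p (Nat.card Y) : ℝ) ^ (α - ε) * n ^ (α - ε) :=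
    Real.mul_rpow (by positivity) (by linarith)
  rw [e2, e3] at e1
  have hn0 : 0 < n ^ (α - ε) := by positivity
  have e4 : c * T ^ m ≤ m * S ^ m * n ^ (α - ε) := by
    calc c * T ^ m ≤ c * ((pPrimePart p (Nat.card Y) : ℝ) ^ (α - ε) * n ^ (α - ε)) := by
          gcongr
      _ = (c * (pPrimePart p (Nat.card Y) : ℝ) ^ (α - ε)) * n ^ (α - ε) := by ring
      _ ≤ (m * S ^ m) * n ^ (α - ε) :=
          mul_le_mul_of_nonneg_right (hYb.trans hs') hn0.le
  have e5 : (T / S) ^ m ≤ K * m := by
    rw [div_pow, div_le_iff₀ (by positivity), hK]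
    rw [div_mul_eq_mul_div, div_mul_eq_mul_div, le_div_iff₀ hc]
    nlinarith [e4]
  have hTS : 0 < (T / S) ^ m := by positivity
  rw [pow_one, div_lt_div_iff₀ hTS hK0] at hm1
  nlinarith


theorem result (p : ℕ) [Fact p.Prime] (k : Type) [Field k] (α : ℝ) (L : ℕ) :
    (∀ (G : Type) [Group G] [Finite G],
      (pPrimePart p (Nat.card G) : ℝ) ^ α ≤ ssDim k G) ↔
    (∀ ε : ℝ, 0 < ε → ∃ c : ℝ, 0 < c ∧ ∀ (X : Type) [Group X] [Finite X], Cls p L X →
      c * (pPrimePart p (Nat.card X) : ℝ) ^ (α - ε) ≤ ssDim k X) := by
  constructor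
  · intro h ε hε
    refine ⟨1, one_pos, fun X _ _ _ => ?_⟩
    rw [one_mul]
    refine le_trans ?_ (h X)
    have h1 : (1 : ℝ) ≤ (pPrimePart p (Nat.card X) : ℝ) := by
      exact_mod_cast pPrimePart_pos p (Nat.card_pos (α := X)).ne'
    exact Real.rpow_le_rpow_of_exponent_le h1 (by linarith)
  · intro h G _ _
    obtain ⟨P, hP, hPp, hno⟩ := exists_quot p G
    have h1 := main_step p k α L h (G ⧸ P) hno
    have h2 : pPrimePart p (Nat.card G) = pPrimePart p (Nat.card (G ⧸ P)) := by
      obtain ⟨n, hn⟩ := (IsPGroup.iff_card (p := p)).1 hPp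
      rw [Subgroup.card_eq_card_quotient_mul_card_subgroup P, pPrimePart_mul, hn,
        pPrimePart_prime_pow p n (Fact.out), mul_one]
    have h3 : ssDim k (G ⧸ P) ≤ ssDim k G :=
      ssDim_le_of_surjective (QuotientGroup.mk' P) (QuotientGroup.mk'_surjective P)
    rw [h2]
    exact h1.trans (by exact_mod_cast h3)

end Pool.Agent.Results.MP_6335a4_al.PerfectAmplification
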