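import Mathlib
import Pool.Agent.Wil.AllF
import Pool.Agent.Wil.Expl
import Pool.Agent.Wrc.Bdd
import Pool.Agent.Wsn.Mn

set_option autoImplicit false

/-! Willems' inequality for symmetric and alternating groups and for wreath products with them. -/

namespace Pool.Agent.Results.MP_6335a4_al.WreathProducts

/-- The dimension of `k[G] / J(k[G])` over `k`. -/
noncomputable def ssDim (k G : Type) [Field k] [Group G] : ℕ :=
  Module.finrank k (MonoidAlgebra k G ⧸ (Ring.jacobson (MonoidAlgebra k G)).restrictScalars k)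

/-- The `p'`-part of a natural number. -/
def pPrimePart (p n : ℕ) : ℕ := n / p ^ n.factorization p

/-- Willems' inequality for the group `G`, the prime `p` and the field `k` (of characteristic `p`). -/
def Willems (p : ℕ) (k G : Type) [Field k] [Group G] : Prop := pPrimePart p (Nat.card G) ≤ ssDim k G

/-- The action of `P` on the functions `Ω → H`: `(q h) ω = h (q⁻¹ ω)`. -/
def act (H P Ω : Type) [Group H] [Group P] [MulAction P Ω] : P →* MulAut (Ω → H) where
  toFun q :=
    { toFun := fun h ω => h (q⁻¹ • ω)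
      invFun := fun h ω => h (q • ω)
      left_inv := fun h => by funext ω; simp
      right_inv := fun h => by funext ω; simp
      map_mul' := fun _ _ => rfl }
  map_one' := by ext h ω; simp
  map_mul' q r := by
    ext h ω
    simp [mul_smul]

/-- The wreath product `H ≀ P`, `P` acting on `Ω`. -/
abbrev Wr (H P Ω : Type) [Group H] [Group P] [MulAction P Ω] : Type := (Ω → H) ⋊[act H P Ω] P

/-- Let `p` be an odd prime, `n` a natural number, `k` a field of characteristic `p`. If `p ≤ 31`, or `30 n ≤ (p + 1)²`, or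
`n ≥ (201 p²)²`, then Willems' inequality holds for the symmetric and for the alternating group of degree `n`. If `p ≤ 31` or
`30 n ≤ (p + 1)²`, and `P` is one of these two groups, then for every finite group `H`, `|P|_{p'} S_p(H) ^ n ≤ S_p(H ≀ P)`, and
Willems' inequality passes from `H` to `H ≀ P`. -/
theorem result (p : ℕ) [Fact p.Prime] (hp : p ≠ 2) (n : ℕ) (k : Type) [Field k] [CharP k p] :
    ((p ≤ 31 ∨ 30 * n ≤ (p + 1) ^ 2 ∨ (201 * p ^ 2) ^ 2 ≤ n) →
      Willems p k (Equiv.Perm (Fin n)) ∧ Willems p k (alternatingGroup (Fin n))) ∧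
    ((p ≤ 31 ∨ 30 * n ≤ (p + 1) ^ 2) → ∀ (H : Type) [Group H] [Finite H],
      (pPrimePart p (Nat.card (Equiv.Perm (Fin n))) * ssDim k H ^ n ≤ ssDim k (Wr H (Equiv.Perm (Fin n)) (Fin n)) ∧
        pPrimePart p (Nat.card (alternatingGroup (Fin n))) * ssDim k H ^ n ≤
          ssDim k (Wr H (alternatingGroup (Fin n)) (Fin n))) ∧
      (Willems p k H → Willems p k (Wr H (Equiv.Perm (Fin n)) (Fin n)) ∧
        Willems p k (Wr H (alternatingGroup (Fin n)) (Fin n)))) := by
  have hpp : p.Prime := Fact.out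
  have hp3 : 3 ≤ p := by
    have := hpp.two_le
    omega
  have e1 : ∀ m : ℕ, Nat.card (Equiv.Perm (Fin m)) = m.factorial := fun m => by
    rw [Nat.card_perm, Nat.card_eq_fintype_card, Fintype.card_fin]
  have hW : (p ≤ 31 ∨ 30 * n ≤ (p + 1) ^ 2) → ∀ m ≤ n, Pool.Agent.Wil.Wl p 1 m := by
    intro hn m hm
    rcases hn with hn | hn
    · exact Pool.Agent.Wil.wl_all p hp3 hn m
    · intro k' _ _
      rw [one_mul]
      exact Pool.Agent.Wsn.will_E p hp ((Nat.mul_le_mul_left 30 hm).trans hn)
  refine ⟨fun hn => ?_, fun hn => ?_⟩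
  · refine Pool.Agent.Wil.wl_alt hp n ?_ k
    rcases hn with hn | hn | hn
    · exact hW (Or.inl hn) n le_rfl
    · exact hW (Or.inr hn) n le_rfl
    · exact Pool.Agent.Wil.wl_big hp3 n hn
  have hS : ∀ m ≤ n, Pool.Agent.Wil.pPrimePart p m.factorial ≤ Pool.Agent.Wil.ssDim k (Equiv.Perm (Fin m)) := by
    intro m hm
    have h := hW hn m hm k
    rwa [one_mul] at h
  have hw : ∀ (H : Type) [Group H] [Finite H],
      pPrimePart p (Nat.card (Equiv.Perm (Fin n))) * ssDim k H ^ n ≤ ssDim k (Wr H (Equiv.Perm (Fin n)) (Fin n)) ∧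
        pPrimePart p (Nat.card (alternatingGroup (Fin n))) * ssDim k H ^ n ≤
          ssDim k (Wr H (alternatingGroup (Fin n)) (Fin n)) := by
    intro H _ _
    have h1 := Pool.Agent.Wrc.wr_sym_le p k H n hS
    have h2 := Pool.Agent.Wrc.wr_alt_le p hp k H n hS
    rw [← e1 n] at h1
    exact ⟨h1, h2⟩
  intro H _ _
  refine ⟨hw H, fun hH => ⟨?_, ?_⟩⟩
  · exact Pool.Agent.Wrc.wr_will p k H (Equiv.Perm (Fin n)) (Fin n)
      (by rw [Nat.card_eq_fintype_card (α := Fin n), Fintype.card_fin]; exact (hw H).1) hH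
  · exact Pool.Agent.Wrc.wr_will p k H (alternatingGroup (Fin n)) (Fin n)
      (by rw [Nat.card_eq_fintype_card (α := Fin n), Fintype.card_fin]; exact (hw H).2) hH

end Pool.Agent.Results.MP_6335a4_al.WreathProducts
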